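import Pool.Agent.H17.BO.TargetsC

/-!
# MP_70ba79_ag, board bo_modules, module RK1: a pencil of matrices has a singular member
-/

set_option autoImplicit false

namespace Pool.Agent.H19.BO

open MvPolynomial SC Pool.Agent.H27.LV Pool.Agent.H17.VG Pool.Agent.H17.BO

theorem pf_RK1 : T_RK1 := by
  intro k _ _ W hW
  obtain ⟨p, hp⟩ : ∃ p : W →ₗ[k] (Fin 3 → k), ∀ w : W, p w = w.1.1 :=
    ⟨(LinearMap.fst k (Fin 3 → k) (Fin 3 → k)).comp W.subtype, fun _ => rfl⟩
  by_cases hk : Function.Injective p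
  · have h1 : Module.finrank k W = Module.finrank k (Fin 3 → k) := by
      have h2 := LinearMap.finrank_le_finrank_of_injective hk
      rw [Module.finrank_fin_fun] at h2 ⊢
      omega
    have h3 : Function.Surjective p :=
      (LinearMap.injective_iff_surjective_of_finrank_eq_finrank h1).1 hk
    obtain ⟨E, hE⟩ : ∃ E : W ≃ₗ[k] (Fin 3 → k), ∀ w, E w = p w :=
      ⟨LinearEquiv.ofBijective p ⟨hk, h3⟩, fun _ => rfl⟩
    obtain ⟨f, hf⟩ : ∃ f : Module.End k (Fin 3 → k), ∀ a, f a = (E.symm a).1.2 :=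
      ⟨(LinearMap.snd k (Fin 3 → k) (Fin 3 → k)).comp (W.subtype.comp E.symm.toLinearMap),
        fun _ => rfl⟩
    obtain ⟨μ, hμ⟩ := Module.End.exists_eigenvalue f
    obtain ⟨η, hη⟩ := hμ.exists_hasEigenvector
    refine ⟨1, μ, η, Or.inl one_ne_zero, hη.2, ?_⟩
    have h4 : f η = μ • η := hη.apply_eq_smul
    have h5 : ((1 : k) • η, μ • η) = (E.symm η).1 := by
      refine Prod.ext ?_ ?_
      · show (1 : k) • η = (E.symm η).1.1
        rw [one_smul, ← hp, ← hE, E.apply_symm_apply]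
      · show μ • η = (E.symm η).1.2
        rw [← h4, hf]
    rw [h5]
    exact (E.symm η).2
  · rw [← LinearMap.ker_eq_bot, Submodule.eq_bot_iff] at hk
    push Not at hk
    obtain ⟨w, hw, hw0⟩ := hk
    have h1 : w.1.1 = 0 := by rw [← hp]; exact hw
    refine ⟨0, 1, w.1.2, Or.inr one_ne_zero, ?_, ?_⟩
    · intro h2
      exact hw0 (Subtype.ext (Prod.ext h1 h2))
    · have h3 : ((0 : k) • w.1.2, (1 : k) • w.1.2) = w.1 := by
        refine Prod.ext ?_ ?_
        · show (0 : k) • w.1.2 = w.1.1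
          rw [zero_smul, h1]
        · show (1 : k) • w.1.2 = w.1.2
          rw [one_smul]
      rw [h3]
      exact w.2

end Pool.Agent.H19.BO
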