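import Pool.Agent.H65.BO.Targets

/-!
# A dense sequence of finite sequences, one of each length
-/

set_option autoImplicit false

namespace Pool.Agent.H19.BO

open Pool.Agent.H65.BO

/-- The sequence of the number `n`. -/
def sq (n : ℕ) : List Bool :=
  match (Encodable.decode (α := List Bool) n.unpair.1) with
  | some l => if l.length ≤ n then List.replicate (n - l.length) false ++ l
      else List.replicate n false
  | none => List.replicate n false

theorem sq_length (n : ℕ) : (sq n).length = n := by
  unfold sq
  split
  · split_ifs with h
    · simp [Nat.sub_add_cancel h]
    · simp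
  · simp

theorem pf_DSQ : T_DSQ := by
  refine ⟨sq, sq_length, fun l => ?_⟩
  refine ⟨Nat.pair (Encodable.encode l) l.length,
    List.replicate (Nat.pair (Encodable.encode l) l.length - l.length) false, ?_⟩
  unfold sq
  have h : l.length ≤ Nat.pair (Encodable.encode l) l.length := Nat.right_le_pair _ _
  rw [Nat.unpair_pair]
  simp [Encodable.encodek, h]

end Pool.Agent.H19.BO
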